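import Mathlib

/-!
# Project MF: homeomorphisms with distortion in `L^(n-1)` and the modulus of continuity of the inverse

`f (x) = (x₀ * max (k |x₀|) (κ (ρ x)), x')`, where `x = (x₀, x')`, `ρ x` is the maximum norm of `x'`,
`k t = exp (1 - t^(-a)) / t` and `κ r = r (1 - log r)^(1/a)` for arguments in `(0, 1)` and `1` for arguments
at least `1`, `1 < a < n`. This map is a Lipschitz homeomorphism of `ℝ^n` with `f (s e₀) = exp (1 - s^(-a)) e₀`,
its Jacobian is at least `P = max (k |x₀|) (κ (ρ x))`, and `P^(-(n-1))` is locally integrable, since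
`{P ≤ exp (-j)}` is contained in the box `|x₀| ≤ (1+j)^(-1/a)`, `ρ x ≤ exp (-j) (1+j)^(-1/a)`.
-/

set_option autoImplicit false

open Set MeasureTheory Filter Topology
open scoped ContDiff ENNReal NNReal

noncomputable section

namespace Pool.Agent.Q88.MF

/-- Euclidean space. -/
abbrev E (n : ℕ) := EuclideanSpace ℝ (Fin n)

/-- `f` is in `W^{1,1}_loc(Ω)` and `D` is its weak derivative. -/
def IsWeakDeriv {n : ℕ} (Ω : Set (E n)) (f : E n → E n) (D : E n → (E n →L[ℝ] E n)) : Prop :=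
  LocallyIntegrableOn f Ω ∧ LocallyIntegrableOn D Ω ∧
    ∀ φ : E n → ℝ, ContDiff ℝ ∞ φ → HasCompactSupport φ → tsupport φ ⊆ Ω → ∀ v : E n,
      ∫ x, φ x • D x v = - ∫ x, (fderiv ℝ φ x v) • f x

/-- The distortion function. -/
def Kf {n : ℕ} (D : E n → (E n →L[ℝ] E n)) (x : E n) : ℝ :=
  if 0 < (D x).det then ‖D x‖ ^ n / (D x).det else 1

/-- The homeomorphism `e` is in the class `F_n`. -/
def FD {n : ℕ} (e : OpenPartialHomeomorph (E n) (E n)) : Prop :=
  ∃ D : E n → (E n →L[ℝ] E n), IsWeakDeriv e.source e D ∧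
    LocallyIntegrableOn (fun x => (D x).det) e.source ∧
    (∃ K : E n → ℝ, Measurable K ∧ (∀ x, 1 ≤ K x) ∧
      ∀ᵐ x ∂(volume.restrict e.source), ‖D x‖ ^ n ≤ K x * (D x).det) ∧
    LocallyIntegrableOn (fun x => Kf D x ^ (n - 1)) e.source

/-- The exponent `β` is admissible. -/
def Admissible (n : ℕ) (β : ℝ) : Prop :=
  0 < β ∧ ∀ e : OpenPartialHomeomorph (E n) (E n), FD e → ∀ (z : E n) (R : ℝ), 0 < R →
    Metric.closedBall z R ⊆ e.target → ∃ C : ℝ, ∀ x ∈ Metric.ball z R, x ≠ z →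
      ‖e.symm x - e.symm z‖ ≤ C * Real.log (R / ‖x - z‖) ^ (-β)

/-- `m (t) = exp (1 - t^(-a))` on `(0, 1)`. -/
def mf (a t : ℝ) : ℝ := if t ≤ 0 then 0 else if t < 1 then Real.exp (1 - t ^ (-a)) else t

/-- `κ (r) = r (1 - log r)^(1/a)` on `(0, 1)`. -/
def kap (a r : ℝ) : ℝ := if r ≤ 0 then 0 else if r < 1 then r * (1 - Real.log r) ^ (1 / a) else 1

/-- The first coordinate for `t ≥ 0`. -/
def H (a t r : ℝ) : ℝ := max (mf a t) (t * kap a r)

/-- The first coordinate (odd extension). -/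
def hh (a s r : ℝ) : ℝ := if 0 ≤ s then H a s r else - H a (-s) r

/-- The lower bound of the Jacobian. -/
def P (a s r : ℝ) : ℝ := max (mf a |s| / |s|) (kap a r)

/-- The maximum norm of the last `d` coordinates. -/
def rho {d : ℕ} (x : E (d + 1)) : ℝ := ‖(fun i : Fin d => x i.succ)‖

/-- The first basis vector. -/
def e0 (d : ℕ) : E (d + 1) := EuclideanSpace.single 0 1

/-- The map. -/
def F (d : ℕ) (a : ℝ) (x : E (d + 1)) : E (d + 1) := x + (hh a (x 0) (rho x) - x 0) • e0 d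

/-! ### Functions of one variable -/

/-- **JOB RAT** (0.5 h), `theorem rat : S_rat`.
`m (t) / t` is nondecreasing and `m > 0` on `(0, ∞)`. Positivity: cases of the definition.
Case `1 ≤ t`: both sides are `t * t'`. Case `t < 1 ≤ t'`: need `exp (1 - t^(-a)) ≤ t`, that is
`1 - u ≤ log t = -(1/a) log u` with `u = t^(-a) ≥ 1` (`Real.log_rpow`), which follows from
`log u ≤ u - 1` (`Real.log_le_sub_one_of_pos`), `1/a ≤ 1`.
Case `t ≤ t' < 1`: with `u = t^(-a) ≥ u' = t'^(-a) ≥ 1` (`Real.rpow_le_rpow_of_nonpos` or antitonicity),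
`log (t'/t) = (1/a) (log u - log u') = (1/a) log (u/u') ≤ (1/a) (u/u' - 1) ≤ u - u'`, hence
`t'/t ≤ exp (u - u')`, which is the claim. -/
def S_rat : Prop := ∀ a t t' : ℝ, 1 < a → 0 < t → t ≤ t' → 0 < mf a t ∧ mf a t * t' ≤ mf a t' * t

/-- **JOB LIP** (0.8 h), `theorem lip (h : S_rat) : S_lip`.
Take `L = 6 a`. On `(0, 1)` the derivative of `exp (1 - t^(-a))` is
`a t^(-a-1) exp (1 - t^(-a)) ≤ a u^2 exp (1 - u)`, `u = t^(-a) ≥ 1` (because `t^(-a-1) ≤ t^(-2a) = u^2`,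
`a > 1`, `t < 1`), and `u^2 ≤ 2 exp u` (`Real.quadratic_le_exp_of_nonneg` or similar), so it is at most
`2 e a ≤ 6 a`. On `[1, ∞)` the function is `t`, on `(-∞, 0]` it is `0`. The function is continuous: at `1`
both formulas give `1`, and at `0`: `0 ≤ mf a t ≤ t` for `t ≥ 0` (from `S_rat` with `t' = 1`: `mf a 1 = 1`).
Mean value inequality on `[t, t'] ⊆ (0, 1]` (`Convex.norm_image_sub_le_of_norm_deriv_le` on the open
interval and continuity, or `image_le_of_deriv_right_le_deriv_boundary`, or the version for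
`Icc` with derivative in the interior), then combine the three pieces by inserting `0` and `1`. -/
def S_lip : Prop := ∀ a : ℝ, 1 < a → ∃ L : ℝ, 1 ≤ L ∧ ∀ t t' : ℝ, |mf a t - mf a t'| ≤ L * |t - t'|

/-- **JOB KMO** (0.6 h), `theorem kmo : S_kmo`.
For `0 < r < 1`: `1 - log r ≥ 1`, so `r (1 - log r)^(1/a) ≤ r (1 - log r) ≤ 1` (exponent at most `1`;
`-log r = log (1/r) ≤ 1/r - 1`). Monotone: for `0 < r ≤ r' < 1` put `x = log (r'/r) ≥ 0`,
`w = 1 - log r' ≥ 1`; then `1 - log r = w + x ≤ w (1 + x) ≤ w exp (a x)`, so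
`(1 - log r)^(1/a) ≤ w^(1/a) exp x = w^(1/a) (r'/r)` (`Real.mul_rpow`, `← Real.exp_mul`). The other cases
from `0 ≤ κ ≤ 1`. -/
def S_kmo : Prop :=
  ∀ a : ℝ, 1 < a → (∀ r, 0 ≤ kap a r ∧ kap a r ≤ 1) ∧ (∀ r, 0 < r → 0 < kap a r) ∧ Monotone (kap a)

/-- **JOB KRA** (0.3 h), `theorem kra : S_kra`.
`κ (r) / r` is nonincreasing. `r' < 1`: `(1 - log r')^(1/a) ≤ (1 - log r)^(1/a)`. `r < 1 ≤ r'`: the left side is
`r`, and `(1 - log r)^(1/a) ≥ 1`, `r' ≥ 1`. `1 ≤ r`: `r ≤ r'`. -/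
def S_kra : Prop := ∀ a r r' : ℝ, 1 < a → 0 < r → r ≤ r' → kap a r' * r ≤ kap a r * r'

/-- **JOB KEY** (0.4 h), `theorem key : S_key`.
`r > 0` since `mf a t > 0`. If `1 ≤ r`: `κ = 1` and `t ≤ r` (for `t < 1` clear, for `t ≥ 1` as
`mf a t = t`). If `r < 1`: `t < 1` (otherwise `mf a t = t ≥ 1`), and `exp (1 - t^(-a)) ≤ r` gives
`1 - log r ≤ t^(-a)`, so `(1 - log r)^(1/a) ≤ t^(-1)` (`Real.rpow_le_rpow`, `← Real.rpow_mul`), and
`t * (r * (1 - log r)^(1/a)) ≤ r`. -/
def S_key : Prop := ∀ a t r : ℝ, 1 < a → 0 < t → mf a t ≤ r → t * kap a r ≤ r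

/-- **JOB HLR** (0.6 h), `theorem hlr (h : S_rat) (h1 : S_kmo) (h2 : S_kra) (h3 : S_key) : S_hlr`.
`t = 0`: `H = max 0 0 = 0`. Let `t > 0`, `r < r'` (symmetry), `M = mf a t > 0`.
`H a t r ≤ H a t r'` by monotonicity of `κ`. If `t κ(r') ≤ M` then `H a t r' = M ≤ H a t r`.
Otherwise `r' > M` (if `r' ≤ M` then `t κ(r') ≤ t κ(M) ≤ M` by `S_kmo` and `S_key`), and for
`q = max r M` one has `κ(r') q ≤ κ(q) r'` (`S_kra`), `t κ(q) ≤ q` (`S_key`), hence
`t κ(r') - t κ(q) ≤ t κ(q) (r' - q) / q ≤ r' - q ≤ r' - r`, and `t κ(q) ≤ H a t r` (if `q = r` clear; if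
`q = M` then `t κ(M) ≤ M ≤ H a t r`). -/
def S_hlr : Prop := ∀ a t r r' : ℝ, 1 < a → 0 ≤ t → |H a t r - H a t r'| ≤ |r - r'|

/-- **JOB HLS** (0.5 h), `theorem hls (h : S_lip) (h1 : S_kmo) : S_hls`.
For `t, t' ≥ 0`: `|H a t r - H a t' r| ≤ L |t - t'|` since `mf a` is Lipschitz with constant `L` and
`t ↦ t κ(r)` with constant `1 ≤ L` (`abs_max_sub_max_le_max`). `H a 0 r = 0`. Cases of the signs of `s`
and `s'`: equal signs directly; for `s < 0 ≤ s'`:
`|hh a s' r - hh a s r| ≤ |H a s' r - H a 0 r| + |H a (-s) r - H a 0 r| ≤ L s' + L (-s) = L (s' - s)`. -/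
def S_hls : Prop :=
  ∀ a : ℝ, 1 < a → ∃ L : ℝ, 1 ≤ L ∧ ∀ s s' r : ℝ, |hh a s r - hh a s' r| ≤ L * |s - s'|

/-- **JOB INC** (0.4 h), `theorem inc (h : S_rat) (h1 : S_kmo) : S_inc`.
For `0 < s < s'`: `H a s r = s * P a s r` (`mul_max_of_nonneg`), `P a s r ≤ P a s' r` because `mf a t / t` is
nondecreasing (`S_rat`), so `H a s' r - H a s r ≥ s' * P a s r - s * P a s r`. And `P a s r > 0`.
Oddness: `hh a (-s) r = - hh a s r` from the definition (for `s ≠ 0`). -/
def S_inc : Prop :=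
  ∀ a s s' r : ℝ, 1 < a → 0 < s → s < s' →
    0 < P a s r ∧ P a s r * (s' - s) ≤ hh a s' r - hh a s r ∧ hh a (-s) r = - hh a s r ∧
      P a (-s) r = P a s r

/-- **JOB BIJ** (0.6 h), `theorem bij (h : S_rat) (h1 : S_kmo) (h2 : S_hls) (h3 : S_inc) : S_bij`.
`hh a 0 r = 0`; `hh a s r > 0` for `s > 0` (at least `mf a s`), strictly increasing on `(0, ∞)` by `S_inc`, odd;
so strictly monotone on the line. For `s ≥ 1`: `hh a s r = max s (s * κ(r)) = s` because `κ ≤ 1`; and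
`hh a s r = s` for `s ≤ -1`. Continuous in `s` (Lipschitz, `S_hls`), so surjective by the intermediate
value theorem (`mem_range_of_exists_le_of_exists_ge` or `Continuous.surjective`). -/
def S_bij : Prop :=
  ∀ a r : ℝ, 1 < a → StrictMono (fun s => hh a s r) ∧ Function.Surjective (fun s => hh a s r) ∧
    (∀ s : ℝ, 1 ≤ |s| → hh a s r = s) ∧ hh a 0 r = 0 ∧ ∀ s : ℝ, 0 ≤ s → s ≤ 1 → 0 ≤ hh a s r ∧ hh a s r ≤ 1

/-- **JOB LEV** (0.6 h), `theorem lev : S_lev`.
`P a s r ≤ exp (-j) < 1`. Then `|s| < 1` (for `|s| ≥ 1` the first entry is `1`) and `r < 1`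
(otherwise `κ = 1`). First bound (clear for `s = 0`): with `t = |s| ∈ (0, 1)`,
`exp (1 - t^(-a)) ≤ t exp (-j) ≤ exp (-j)`, so `t^(-a) ≥ 1 + j`, `t ≤ (1 + j)^(-(1/a))`
(raise to the power `-(1/a)`, antitone). Second bound (clear for `r = 0`): for `0 < r < 1`,
`r (1 - log r)^(1/a) ≤ exp (-j)`; as `(1 - log r)^(1/a) ≥ 1`, `r ≤ exp (-j)`, `log r ≤ -j`,
`1 - log r ≥ 1 + j`, so `r (1 + j)^(1/a) ≤ exp (-j)`. -/
def S_lev : Prop :=
  ∀ (a s r : ℝ) (j : ℕ), 1 < a → 0 ≤ r → 1 ≤ j → P a s r ≤ Real.exp (-(j : ℝ)) →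
    |s| ≤ (1 + (j : ℝ)) ^ (-(1 / a)) ∧ r ≤ Real.exp (-(j : ℝ)) * (1 + (j : ℝ)) ^ (-(1 / a))

/-- **JOB MOD** (0.6 h), `theorem mod (h : S_rat) : S_mod`.
For `0 < s < 1`: `log (R / mf a s) = log R - 1 + s^(-a)`. For small `s`: `s^(-a) ≥ 2 |log R - 1|`, hence this
is at least `s^(-a) / 2`, and (`C ≤ |C|`, `-β < 0`) `C * log (R / mf a s)^(-β) ≤ |C| * (s^(-a)/2)^(-β)
= |C| 2^β s^(a β)`, which is smaller than `s` when `s^(a β - 1) < 1 / (|C| 2^β + 1)`. Also
`mf a s ≤ s < R` for small `s`. (Filter proof: all conditions hold eventually for `s → 0+`.) -/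
def S_mod : Prop :=
  ∀ a β C R : ℝ, 1 < a → 0 < β → 1 < a * β → 0 < R →
    ∃ s : ℝ, 0 < s ∧ s < 1 ∧ mf a s < R ∧ C * Real.log (R / mf a s) ^ (-β) < s

/-! ### Integrability -/

/-- **JOB BOX** (0.5 h), `theorem box : S_box`.
The set is the preimage under the measurable equivalence `EuclideanSpace.measurableEquiv` (or
`MeasurableEquiv.toLp`, `EuclideanSpace.volume_preserving_symm_measurableEquiv_toLp` or
`PiLp.volume_preserving_ofLp`) of the box `Set.pi univ (Fin.cons (Icc (-A) A) (fun _ => Icc (-B) B))`, whose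
volume is `∏` (`MeasureTheory.volume_pi_pi` / `Real.volume_Icc_pi`, `Fin.prod_univ_succ`), `rho x ≤ B` iff
`|x i.succ| ≤ B` for all `i` (`pi_norm_le_iff_of_nonneg`). -/
def S_box : Prop :=
  ∀ (d : ℕ) (A B : ℝ), 0 ≤ A → 0 ≤ B →
    volume {x : E (d + 1) | |x 0| ≤ A ∧ rho x ≤ B} ≤ ENNReal.ofReal (2 * A * (2 * B) ^ d)

/-- **JOB ITA** (0.8 h), `theorem ita (h : S_lev) (h1 : S_box) (h2 : S_kmo) (h3 : S_rat) : S_ita`.
Up to the null set where `P = 0` (there `x 0 = 0`; `S_ita` also gives the null set; a hyperplane has measure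
zero), the set `{P < 1}` is the union of `T j = {exp (-(j+1)) < P ≤ exp (-j)}`, `j ≥ 0`, intersected with
`{P < 1}`. On `T j`, `(1/P)^d ≤ exp ((j+1) d)`. For `j ≥ 1`, `T j` is contained in the box of `S_lev`, with
volume at most `2 (1+j)^(-(1/a)) (2 exp (-j) (1+j)^(-(1/a)))^d = 2^(d+1) exp (-j d) (1+j)^(-(d+1)/a)`; for
`j = 0`, `T 0 ∩ {P < 1}` is contained in the box `|x 0| ≤ 1`, `rho x ≤ 1`. So the integral is at most
`e^d 2^(d+1) (1 + ∑ (1+j)^(-(d+1)/a)) < ∞` as `(d+1)/a > 1` (`Real.summable_nat_rpow`,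
`lintegral_iUnion_le`, `ENNReal.tsum_le_tsum`, `ENNReal.ofReal_tsum_of_nonneg`). -/
def S_ita : Prop :=
  ∀ (d : ℕ) (a : ℝ), 1 < a → a < d + 1 →
    ∫⁻ x in {x : E (d + 1) | P a (x 0) (rho x) < 1}, ENNReal.ofReal ((1 / P a (x 0) (rho x)) ^ d) < ⊤

/-- **JOB MEA** (0.3 h), `theorem mea (h : S_kmo) : S_mea`.
`mf a` is measurable (`Measurable.ite`, `measurability`/`fun_prop`), `kap a` is measurable (monotone:
`Monotone.measurable`, or directly), `rho` is continuous, coordinates are measurable. -/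
def S_mea : Prop :=
  ∀ (d : ℕ) (a : ℝ), 1 < a → Measurable (fun x : E (d + 1) => P a (x 0) (rho x))

/-- **JOB INT** (0.5 h), `theorem int (h : S_ita) (h1 : S_mea) : S_int`.
On `{P < 1}` the function `(max 1 (c / P))^d ≤ (1 + c)^d (1 / P)^d` has a finite integral (`S_ita`), on
`{1 ≤ P}` it is bounded by `(1 + c)^d`; so it is integrable on every compact set (or ball).
(`locallyIntegrable_iff`, or `IntegrableOn` on a closed ball around each point; `P ≤ 0` is harmless: there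
`c / P ≤ 0`, the value is `1`.) -/
def S_int : Prop :=
  ∀ (d : ℕ) (a c : ℝ), 1 < a → a < d + 1 → 0 < c →
    LocallyIntegrable (fun x : E (d + 1) => (max 1 (c / P a (x 0) (rho x))) ^ d)

/-! ### The map -/

/-- **JOB COO** (0.3 h), `theorem coo : S_coo`.
Coordinates of `F d a x` (`EuclideanSpace.single_apply`, `PiLp.add_apply`, `PiLp.smul_apply`), and
`rho (x + τ • e0 d) = rho x`. -/
def S_coo : Prop :=
  ∀ (d : ℕ) (a : ℝ) (x : E (d + 1)), F d a x 0 = hh a (x 0) (rho x) ∧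
    (∀ i : Fin d, F d a x i.succ = x i.succ) ∧ rho (F d a x) = rho x ∧
    ∀ τ : ℝ, rho (x + τ • e0 d) = rho x ∧ (x + τ • e0 d) 0 = x 0 + τ

/-- **JOB AXI** (0.3 h), `theorem axi (h : S_kmo) : S_axi`.
`rho (s • e0 d) = 0` and `rho 0 = 0`, `kap a 0 = 0`, so `hh a s 0 = max (mf a s) (s * 0) = mf a s`
(`mf a s ≥ 0` by the definition). -/
def S_axi : Prop :=
  ∀ (d : ℕ) (a s : ℝ), 1 < a → 0 < s → F d a (s • e0 d) = mf a s • e0 d ∧ F d a 0 = 0 ∧ 0 < mf a s

/-- **JOB LFF** (0.5 h), `theorem lff (h : S_hlr) (h1 : S_hls) : S_lff`.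
`|x 0 - y 0| ≤ ‖x - y‖`, `|rho x - rho y| ≤ ‖x' - y'‖_∞ ≤ ‖x - y‖` (`abs_norm_sub_norm_le`,
`pi_norm_le_iff_of_nonneg`, `EuclideanSpace.norm_eq` / `PiLp.norm_apply_le`). By `S_hls` and `S_hlr` (the odd
extension of `S_hlr`: `|hh a s r - hh a s r'| ≤ |r - r'|` for every `s`), `x ↦ hh a (x 0) (rho x)` is Lipschitz
with constant `L + 1`, and `F` is Lipschitz with constant `L + 3`. -/
def S_lff : Prop := ∀ (d : ℕ) (a : ℝ), 1 < a → ∃ L : ℝ≥0, LipschitzWith L (F d a)

/-- **JOB HOM** (0.8 h), `theorem hom (h : S_coo) (h1 : S_bij) (h2 : S_lff) : S_hom`.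
Injective: if `F x = F y` then the last coordinates agree (`S_coo`), `rho x = rho y`, and
`hh a (x 0) r = hh a (y 0) r` gives `x 0 = y 0`. Surjective: given `y`, choose `s` with
`hh a s (rho y) = y 0` and take `x = y + (s - y 0) • e0 d`. Continuous: Lipschitz. Proper: `‖F x - x‖ ≤ 2`
(for `|x 0| ≥ 1` it is `0`; for `|x 0| ≤ 1` both `|hh|` and `|x 0|` are at most `1`; for negative `x 0` use strict
monotonicity and the value at `-1`), so `F` tends to the cocompact filter along the cocompact filter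
(`tendsto_norm_cocompact_atTop`, `tendsto_norm_atTop_iff_cocompact` or `comap_norm_atTop`), hence
`F` is a closed map (`isProperMap_iff_tendsto_cocompact`, `IsProperMap.isClosedMap`);
`Equiv.toHomeomorphOfContinuousClosed` or `isHomeomorph_iff_continuous_isClosedMap_bijective`. -/
def S_hom : Prop := ∀ (d : ℕ) (a : ℝ), 1 < a → ∃ e : E (d + 1) ≃ₜ E (d + 1), ∀ x, e x = F d a x

/-- **JOB DEA** (0.5 h), `theorem dea : S_dea`.
`D = 1 + (g - pr₀) ⊗ e₀`: the determinant of `1 + φ ⊗ u` is `1 + φ (u)`. With the matrix in the standard basis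
(`LinearMap.det_toLin`, `EuclideanSpace.basisFun`): row `0` is `(g e₀, g e₁, …)` and row `i` is the `i`-th unit
row for `i ≥ 1`; so the matrix is upper triangular (`Matrix.det_of_upperTriangular`,
`Fin.prod_univ_succ`) with diagonal `(g e₀, 1, …, 1)`. Or `Matrix.det_one_add_replicateCol_mul_replicateRow`,
or Mathlib's determinant of a transvection-like map. -/
def S_dea : Prop :=
  ∀ (d : ℕ) (g : E (d + 1) →L[ℝ] ℝ) (D : E (d + 1) →L[ℝ] E (d + 1)),
    (∀ v, D v = v + (g v - v 0) • e0 d) → D.det = g (e0 d)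

/-- **JOB DEB** (0.7 h), `theorem deb (h : S_dea) (h1 : S_coo) (h2 : S_inc) : S_deb`.
Let `G y = F d a y 0 = hh a (y 0) (rho y)` (differentiable at `x`, coordinate of `F`). Then
`F d a y = y + (G y - y 0) • e0 d`, so `fderiv F x v = v + (g v - v 0) • e0 d` with `g = fderiv ℝ G x`, and the
determinant is `g (e0 d)` (`S_dea`), the derivative at `0` of
`τ ↦ G (x + τ • e0 d) = hh a (x 0 + τ) (rho x)` (`HasFDerivAt.hasLineDerivAt` or composition with the line).
If `x 0 > 0`: for `τ > 0` the quotient `(hh a (x 0 + τ) r - hh a (x 0) r) / τ` is at least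
`P a (x 0) r` (`S_inc`), pass to the limit `τ → 0+` (`ge_of_tendsto`, `HasDerivAt.tendsto_slope` restricted
to `𝓝[>] 0`). If `x 0 < 0`: use `τ < 0` and oddness: with `s = -x 0 > 0`,
`hh a (x 0 + τ) r - hh a (x 0) r = -(hh a (s - τ) r - hh a s r) ≤ P a s r * τ`. -/
def S_deb : Prop :=
  ∀ (d : ℕ) (a : ℝ) (x : E (d + 1)), 1 < a → x 0 ≠ 0 → DifferentiableAt ℝ (F d a) x →
    0 < P a (x 0) (rho x) ∧ P a (x 0) (rho x) ≤ (fderiv ℝ (F d a) x).det

/-- **JOB WDE** (0.8 h), `theorem wde : S_wde`.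
`f` is continuous, so locally integrable. `fderiv ℝ f` is measurable (`measurable_fderiv`) and bounded by `L`
(`norm_fderiv_le_of_lipschitz`), so locally integrable. For the identity fix `v` and `φ`; `f` is
differentiable almost everywhere (`LipschitzWith.ae_differentiableAt`). Coordinatewise (inner product with a
basis vector, or coordinates): for the Lipschitz function `f_i = fun x => f x i`,
`∫ lineDeriv ℝ f_i x v * φ x = ∫ lineDeriv ℝ φ x (-v) * f_i x`
(`LipschitzWith.integral_lineDeriv_mul_eq`, `φ` is Lipschitz because it is smooth with compact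
support), and `lineDeriv ℝ f_i x v = (fderiv ℝ f x v) i` at points of differentiability
(`DifferentiableAt.lineDeriv_eq_fderiv`). Both integrands are integrable (compact support), so the
coordinates of the integrals are the integrals of the coordinates (`ContinuousLinearMap.integral_comp_comm`
for `EuclideanSpace.proj i`). -/
def S_wde : Prop :=
  ∀ (n : ℕ) (f : E n → E n) (L : ℝ≥0), LipschitzWith L f → IsWeakDeriv univ f (fderiv ℝ f)

/-- **JOB NUL** (0.3 h), `theorem nul : S_nul`.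
The hyperplane `{x | x 0 = 0}` has measure zero (`MeasureTheory.Measure.addHaar_submodule` for the kernel
of the coordinate projection, which is not the whole space; or the box `S_box`-like computation). -/
def S_nul : Prop := ∀ d : ℕ, ∀ᵐ x : E (d + 1), x 0 ≠ 0

/-- **JOB CLS** (0.8 h), `theorem cls (h : S_lff) (h1 : S_deb) (h2 : S_wde) (h3 : S_nul) (h4 : S_int) (h5 : S_mea) : S_cls`.
`D = fderiv ℝ (F d a)`, `L` a Lipschitz constant (at least `1`), `c = L^(d+1)`, `source = univ`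
(`Homeomorph.toOpenPartialHomeomorph_source`). Weak derivative: `S_wde`. The determinant is measurable
(continuous function of `D`; `ContinuousLinearMap.continuous_det`) and bounded: `|det D| ≤ C ‖D‖^(d+1)`, or
bounded as a continuous function on the closed ball of radius `L` of the finite dimensional space of
operators (compact). For almost every `x`: `F` is differentiable at `x` and `x 0 ≠ 0`, hence
`0 < P ≤ det D x`, `‖D x‖ ≤ L`. `K x = max 1 (c / P a (x 0) (rho x))` is measurable (`S_mea`), and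
`K x * det D x ≥ (c / P) * P = c ≥ ‖D x‖^(d+1)`. Finally `0 ≤ Kf D x ≤ max 1 (c / P)` a.e., the power `d` is
locally integrable by `S_int` (`LocallyIntegrable.mono`, measurability of `Kf D`). -/
def S_cls : Prop :=
  ∀ (d : ℕ) (a : ℝ), 1 < a → a < d + 1 → ∀ e : E (d + 1) ≃ₜ E (d + 1), (∀ x, e x = F d a x) →
    FD e.toOpenPartialHomeomorph

/-- **JOB FIN** (0.6 h), `theorem fin (h : S_hom) (h1 : S_cls) (h2 : S_axi) (h3 : S_mod) : S_fin`.
Let `β` be admissible and suppose `β > 1 / (d+1)`. Choose `a` with `max 1 (1/β) < a < d + 1` (possible: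
`1 < d + 1`, `1/β < d + 1`); `a β > 1`. Take `e` from `S_hom`, in the class by `S_cls`; apply the hypothesis with
`z = 0`, `R = 1` (target is `univ`): there is `C` with the inequality. Take `s` from `S_mod` for this `C` and
`R = 1`; `x = mf a s • e0 d = F d a (s • e0 d) = e (s • e0 d)`, so `e.symm x = s • e0 d`, `e.symm 0 = 0`
(`e 0 = 0`), `‖x‖ = mf a s < 1`, `x ≠ 0`, `‖s • e0 d‖ = s` (`‖e0 d‖ = 1`, `EuclideanSpace.norm_single`):
contradiction. -/
def S_fin : Prop := ∀ (d : ℕ) (β : ℝ), 1 ≤ d → Admissible (d + 1) β → β ≤ 1 / ((d : ℝ) + 1)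

end Pool.Agent.Q88.MF
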